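import Mathlib

set_option autoImplicit false

open Finset
open scoped ENNReal

namespace Pool.Agent.Results.MP_8db9c5_an.NontrivialIsometry

/-- `IsFamily k p q`: the first `k` intervals `[p 0, q 0], …, [p (k-1), q (k-1)]` satisfy
`p 0 ≤ q 0 < p 1 ≤ q 1 < ⋯ < p (k-1) ≤ q (k-1)` and `1 ≤ k` (indices start from `0`). -/
def IsFamily (k : ℕ) (p q : ℕ → ℕ) : Prop :=
  1 ≤ k ∧ (∀ i, i < k → p i ≤ q i) ∧ ∀ i, i + 1 < k → q i < p (i + 1)

/-- The vector `∑_i (∑_{j = p i}^{q i} a_j) x_{p i}`. -/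
noncomputable def blockVec {X : Type} [NormedAddCommGroup X] [NormedSpace ℝ X] (x : ℕ → X)
    (a : ℕ →₀ ℝ) (k : ℕ) (p q : ℕ → ℕ) : X :=
  ∑ i ∈ range k, (∑ j ∈ Icc (p i) (q i), a j) • x (p i)

/-- `J` with the linear map `ι : c₀₀ → J` is a Jamesification of the sequence `x`, i.e. a
completion of `c₀₀` under the norm `‖a‖ = sup ‖∑_i (∑_{j = p i}^{q i} a_j) x_{p i}‖`, the
supremum being over all finite families of intervals as in `IsFamily`. -/
def IsJamesification {X : Type} [NormedAddCommGroup X] [NormedSpace ℝ X] (x : ℕ → X)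
    (J : Type) [NormedAddCommGroup J] [NormedSpace ℝ J] (ι : (ℕ →₀ ℝ) →ₗ[ℝ] J) : Prop :=
  DenseRange ι ∧ ∀ a : ℕ →₀ ℝ,
    IsLUB {r : ℝ | ∃ (k : ℕ) (p q : ℕ → ℕ), IsFamily k p q ∧ r = ‖blockVec x a k p q‖} ‖ι a‖

/-! ### Existence of the Jamesification -/

section exist
variable {X : Type} [NormedAddCommGroup X] [NormedSpace ℝ X]

/-- index type of all families -/
def Fam : Type := {F : ℕ × (ℕ → ℕ) × (ℕ → ℕ) // IsFamily F.1 F.2.1 F.2.2}

instance : Nonempty Fam := ⟨⟨(1, fun _ => 0, fun _ => 0), by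
  refine ⟨le_rfl, fun _ _ => le_rfl, fun i hi => ?_⟩
  dsimp only at hi
  omega⟩⟩

noncomputable def blockLin (x : ℕ → X) (F : Fam) : (ℕ →₀ ℝ) →ₗ[ℝ] X where
  toFun a := blockVec x a F.1.1 F.1.2.1 F.1.2.2
  map_add' a b := by
    simp only [blockVec, Finsupp.add_apply, sum_add_distrib, add_smul]
  map_smul' c a := by
    simp only [blockVec, Finsupp.smul_apply, smul_eq_mul, ← mul_sum, mul_smul, smul_sum,
      RingHom.id_apply]

lemma IsFamily.q_lt {k : ℕ} {p q : ℕ → ℕ} (h : IsFamily k p q) :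
    ∀ i j, i < j → j < k → q i < p j := by
  intro i j hij
  induction j, hij using Nat.le_induction with
  | base => exact fun hk => h.2.2 i hk
  | succ j hj ih =>
    intro hk
    have h1 := ih (by omega)
    have h2 := h.2.1 j (by omega)
    have h3 := h.2.2 j hk
    omega

lemma blockLin_single (x : ℕ → X) (C : ℝ) (hx : ∀ i, ‖x i‖ ≤ C) (F : Fam) (j : ℕ) (c : ℝ) :
    ‖blockLin x F (Finsupp.single j c)‖ ≤ |c| * C := by
  obtain ⟨⟨k, p, q⟩, hF⟩ := F
  have hC : 0 ≤ C := (norm_nonneg _).trans (hx 0)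
  change ‖blockVec x (Finsupp.single j c) k p q‖ ≤ |c| * C
  unfold blockVec
  by_cases h : ∃ i, i < k ∧ p i ≤ j ∧ j ≤ q i
  · obtain ⟨i, hi, hpi, hqi⟩ := h
    rw [sum_eq_single i]
    · rw [norm_smul]
      refine mul_le_mul ?_ (hx _) (norm_nonneg _) (abs_nonneg _)
      rw [sum_eq_single j]
      · simp
      · intro l _ hl
        rw [Finsupp.single_apply, if_neg (Ne.symm hl)]
      · intro hj
        exact absurd (mem_Icc.mpr ⟨hpi, hqi⟩) hj
    · intro l hl hli
      rw [sum_eq_zero, zero_smul]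
      intro m hm
      rw [Finsupp.single_apply, if_neg]
      rintro rfl
      rw [mem_Icc] at hm
      rw [mem_range] at hl
      rcases Nat.lt_or_gt_of_ne hli with h1 | h1
      · have := hF.q_lt l i h1 hi
        dsimp only at this
        omega
      · have := hF.q_lt i l h1 hl
        dsimp only at this
        omega
    · intro hi'
      exact absurd (mem_range.mpr hi) hi'
  · push Not at h
    rw [sum_eq_zero, norm_zero]
    · positivity
    · intro i hi
      rw [sum_eq_zero, zero_smul]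
      intro m hm
      rw [Finsupp.single_apply, if_neg]
      rintro rfl
      rw [mem_Icc] at hm
      have := h i (mem_range.mp hi) hm.1
      omega

lemma blockLin_bound (x : ℕ → X) (C : ℝ) (hx : ∀ i, ‖x i‖ ≤ C) (a : ℕ →₀ ℝ) :
    ∃ B, ∀ F : Fam, ‖blockLin x F a‖ ≤ B := by
  induction a using Finsupp.induction_linear with
  | zero => exact ⟨0, fun F => by simp⟩
  | add a b iha ihb =>
    obtain ⟨A, hA⟩ := iha
    obtain ⟨B, hB⟩ := ihb
    refine ⟨A + B, fun F => ?_⟩
    rw [map_add]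
    exact (norm_add_le _ _).trans (add_le_add (hA F) (hB F))
  | single j c => exact ⟨|c| * C, fun F => blockLin_single x C hx F j c⟩

noncomputable def embed (x : ℕ → X) (C : ℝ) (hx : ∀ i, ‖x i‖ ≤ C) :
    (ℕ →₀ ℝ) →ₗ[ℝ] lp (fun _ : Fam => X) ∞ where
  toFun a := ⟨fun F => blockLin x F a, by
    obtain ⟨B, hB⟩ := blockLin_bound x C hx a
    refine memℓp_infty ⟨B, ?_⟩
    rintro _ ⟨F, rfl⟩
    exact hB F⟩
  map_add' a b := by
    ext F
    exact map_add (blockLin x F) a b
  map_smul' c a := by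
    ext F
    exact map_smul (blockLin x F) c a

lemma exists_jamesification [CompleteSpace X] (x : ℕ → X) (C : ℝ) (hx : ∀ i, ‖x i‖ ≤ C) :
    ∃ (J : Type) (_ : NormedAddCommGroup J) (_ : NormedSpace ℝ J) (_ : CompleteSpace J)
      (ι : (ℕ →₀ ℝ) →ₗ[ℝ] J), IsJamesification x J ι := by
  let E := embed x C hx
  let M : Submodule ℝ (lp (fun _ : Fam => X) ∞) := (LinearMap.range E).topologicalClosure
  have hM : IsClosed (M : Set (lp (fun _ : Fam => X) ∞)) :=
    Submodule.isClosed_topologicalClosure _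
  have hE : ∀ a, E a ∈ M := fun a => Submodule.le_topologicalClosure _ ⟨a, rfl⟩
  refine ⟨M, inferInstance, inferInstance, hM.completeSpace_coe, E.codRestrict M hE, ?_, ?_⟩
  · intro y
    rw [closure_subtype]
    have h1 : (y : lp (fun _ : Fam => X) ∞) ∈ closure (LinearMap.range E : Set _) := by
      have := y.2
      rwa [← Submodule.topologicalClosure_coe]
    refine closure_mono ?_ h1
    rintro _ ⟨a, rfl⟩
    exact ⟨⟨E a, hE a⟩, ⟨a, rfl⟩, rfl⟩
  · intro a
    have h1 := lp.isLUB_norm (E a)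
    convert h1 using 1
    · ext r
      constructor
      · rintro ⟨k, p, q, hF, rfl⟩
        exact ⟨⟨(k, p, q), hF⟩, rfl⟩
      · rintro ⟨⟨⟨k, p, q⟩, hF⟩, rfl⟩
        exact ⟨k, p, q, hF, rfl⟩
    · rfl

end exist

/-! ### Reflexivity -/

/-- A Banach space isomorphic to a Hilbert space is reflexive. -/
lemma reflexive_of_equiv {X H : Type} [NormedAddCommGroup X] [NormedSpace ℝ X]
    [NormedAddCommGroup H] [InnerProductSpace ℝ H] [CompleteSpace H] (e : X ≃L[ℝ] H) :
    Function.Surjective (NormedSpace.inclusionInDoubleDual ℝ X) := by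
  intro Φ
  -- the functional `v ↦ Φ (⟨v, e ·⟩)` on `H`
  let L1 : H →L[ℝ] StrongDual ℝ H := (InnerProductSpace.toDual ℝ H).toContinuousLinearEquiv.toContinuousLinearMap
  let L2 : StrongDual ℝ H →L[ℝ] StrongDual ℝ X :=
    ContinuousLinearMap.precomp ℝ (e : X →L[ℝ] H)
  let Ψ : StrongDual ℝ H := (Φ.comp L2).comp L1
  let w : H := (InnerProductSpace.toDual ℝ H).symm Ψ
  have hw : ∀ v : H, inner ℝ w v = Ψ v := fun v => InnerProductSpace.toDual_symm_apply
  refine ⟨e.symm w, ?_⟩
  ext f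
  rw [NormedSpace.dual_def]
  let v : H := (InnerProductSpace.toDual ℝ H).symm (f.comp (e.symm : H →L[ℝ] X))
  have hv : ∀ u : H, inner ℝ v u = f (e.symm u) := fun u => InnerProductSpace.toDual_symm_apply
  have h1 : L2 (L1 v) = f := by
    ext x
    change inner ℝ v (e x) = f x
    rw [hv, e.symm_apply_apply]
  calc f (e.symm w) = inner ℝ v w := (hv w).symm
    _ = inner ℝ w v := real_inner_comm _ _
    _ = Ψ v := hw v
    _ = Φ (L2 (L1 v)) := rfl
    _ = Φ f := by rw [h1]

/-! ### The space `X = (ℝ ⊕_∞ ℝ) ⊕_∞ ℓ²` -/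

/-- The real Hilbert space `ℓ²`. -/
abbrev L : Type := lp (fun _ : ℕ => ℝ) 2

/-- The space `X`. -/
abbrev XX : Type := (ℝ × ℝ) × L

lemma reflexive_XX : Function.Surjective (NormedSpace.inclusionInDoubleDual ℝ XX) := by
  let e1 : WithLp 2 (ℝ × ℝ) ≃L[ℝ] ℝ × ℝ := WithLp.prodContinuousLinearEquiv 2 ℝ ℝ ℝ
  let e2 : WithLp 2 (WithLp 2 (ℝ × ℝ) × L) ≃L[ℝ] (WithLp 2 (ℝ × ℝ) × L) :=
    WithLp.prodContinuousLinearEquiv 2 ℝ _ _
  let e3 : (WithLp 2 (ℝ × ℝ) × L) ≃L[ℝ] XX := e1.prodCongr (ContinuousLinearEquiv.refl ℝ L)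
  exact reflexive_of_equiv (e2.trans e3).symm

/-- the basis vectors -/
noncomputable def bv : ℕ → XX
  | 0 => ((1, 0), 0)
  | 1 => ((0, 1), 0)
  | (n + 2) => ((0, 0), lp.single 2 n 1)

/-- the coordinate functionals -/
noncomputable def cf : ℕ → StrongDual ℝ XX
  | 0 => (ContinuousLinearMap.fst ℝ ℝ ℝ).comp (ContinuousLinearMap.fst ℝ (ℝ × ℝ) L)
  | 1 => (ContinuousLinearMap.snd ℝ ℝ ℝ).comp (ContinuousLinearMap.fst ℝ (ℝ × ℝ) L)
  | (n + 2) => (lp.evalCLM ℝ (fun _ : ℕ => ℝ) 2 n).comp (ContinuousLinearMap.snd ℝ (ℝ × ℝ) L)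

lemma cf_zero (z : XX) : cf 0 z = z.1.1 := rfl
lemma cf_one (z : XX) : cf 1 z = z.1.2 := rfl
lemma cf_add_two (n : ℕ) (z : XX) : cf (n + 2) z = z.2 n := rfl

/-- the unconditional basis of `X` -/
noncomputable def basisX : UnconditionalSchauderBasis ℕ ℝ XX where
  basis := bv
  coord := cf
  ortho i j := by
    simp only [Pi.single_apply]
    match i, j with
    | 0, 0 => simp [cf_zero, bv]
    | 0, 1 => simp [cf_zero, bv]
    | 0, (n + 2) => simp [cf_zero, bv]
    | 1, 0 => simp [cf_one, bv]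
    | 1, 1 => simp [cf_one, bv]
    | 1, (n + 2) => simp [cf_one, bv]
    | (m + 2), 0 => simp [cf_add_two, bv]
    | (m + 2), 1 => simp [cf_add_two, bv]
    | (m + 2), (n + 2) =>
      by_cases h : m = n
      · subst h; simp [cf_add_two, bv]
      · rw [cf_add_two, bv, if_neg (by omega)]
        simp only
        rw [lp.single_apply_ne _ _ _ h]
  expansion z := by
    have h1 : HasSum (fun n => (lp.single 2 n (z.2 n) : L)) z.2 :=
      lp.hasSum_single (by simp) z.2
    have h2 : HasSum (fun n => (((0 : ℝ), (0 : ℝ)), (lp.single 2 n (z.2 n) : L)))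
        (((0 : ℝ), (0 : ℝ)), z.2) := by
      exact (ContinuousLinearMap.inr ℝ (ℝ × ℝ) L).hasSum h1
    have h3 : ∀ n : ℕ, cf (n + 2) z • bv (n + 2) =
        (((0 : ℝ), (0 : ℝ)), (lp.single 2 n (z.2 n) : L)) := by
      intro n
      rw [cf_add_two]
      simp only [bv]
      rw [Prod.smul_mk, Prod.smul_mk, smul_zero, ← lp.single_smul]
      simp
    have h4 : HasSum (fun n => cf (n + 2) z • bv (n + 2)) (((0 : ℝ), (0 : ℝ)), z.2) := by
      simpa only [h3] using h2
    rw [← hasSum_nat_add_iff' 2]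
    have e : z - ∑ i ∈ range 2, cf i z • bv i = (((0 : ℝ), (0 : ℝ)), z.2) := by
      rw [sum_range_succ, sum_range_succ, sum_range_zero, cf_zero, cf_one]
      simp only [bv]
      ext <;> simp
    rw [e]
    exact h4

lemma norm_bv (i : ℕ) : ‖bv i‖ = 1 := by
  match i with
  | 0 => simp [bv, Prod.norm_def]
  | 1 => simp [bv, Prod.norm_def]
  | (n + 2) => simp [bv, Prod.norm_def, lp.norm_single]

/-! ### The isometry -/

/-- The map `(a₀, a₁, a₂, …) ↦ (-a₀, a₀ + a₁, a₂, …)`. -/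
noncomputable def T0 : (ℕ →₀ ℝ) →ₗ[ℝ] (ℕ →₀ ℝ) where
  toFun a := a + Finsupp.single 0 (-2 * a 0) + Finsupp.single 1 (a 0)
  map_add' a b := by
    ext i
    simp only [Finsupp.add_apply, Finsupp.single_apply]
    split_ifs <;> ring
  map_smul' c a := by
    ext i
    simp only [Finsupp.add_apply, Finsupp.single_apply, Finsupp.smul_apply, smul_eq_mul,
      RingHom.id_apply]
    split_ifs <;> ring

lemma T0_zero (a : ℕ →₀ ℝ) : T0 a 0 = - a 0 := by
  simp [T0]; ring

lemma T0_one (a : ℕ →₀ ℝ) : T0 a 1 = a 0 + a 1 := by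
  simp [T0]; ring

lemma T0_ge (a : ℕ →₀ ℝ) (i : ℕ) (hi : 2 ≤ i) : T0 a i = a i := by
  simp only [T0, LinearMap.coe_mk, AddHom.coe_mk, Finsupp.add_apply, Finsupp.single_apply]
  rw [if_neg (by omega), if_neg (by omega)]
  ring

lemma T0_invol (a : ℕ →₀ ℝ) : T0 (T0 a) = a := by
  ext i
  match i with
  | 0 => rw [T0_zero, T0_zero]; ring
  | 1 => rw [T0_one, T0_zero, T0_one]; ring
  | (n + 2) => rw [T0_ge _ _ (by omega), T0_ge _ _ (by omega)]

lemma sum_Icc_T0_ge (a : ℕ →₀ ℝ) (p q : ℕ) (hp : 2 ≤ p) :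
    ∑ j ∈ Icc p q, T0 a j = ∑ j ∈ Icc p q, a j := by
  apply sum_congr rfl
  intro j hj
  rw [mem_Icc] at hj
  exact T0_ge a j (by omega)

lemma sum_Icc_T0_one (a : ℕ →₀ ℝ) (q : ℕ) (hq : 1 ≤ q) :
    ∑ j ∈ Icc 1 q, T0 a j = ∑ j ∈ Icc 0 q, a j := by
  have e1 : Icc 1 q = insert 1 (Icc 2 q) := by
    ext j; simp only [mem_Icc, mem_insert]; omega
  have e2 : Icc 0 q = insert 0 (insert 1 (Icc 2 q)) := by
    ext j; simp only [mem_Icc, mem_insert]; omega
  rw [e1, e2, sum_insert (by simp), sum_insert (by simp), sum_insert (by simp), T0_one,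
    sum_Icc_T0_ge _ _ _ le_rfl]
  ring

lemma sum_Icc_T0_zero (a : ℕ →₀ ℝ) (q : ℕ) (hq : 1 ≤ q) :
    ∑ j ∈ Icc 0 q, T0 a j = ∑ j ∈ Icc 1 q, a j := by
  have e1 : Icc 1 q = insert 1 (Icc 2 q) := by
    ext j; simp only [mem_Icc, mem_insert]; omega
  have e2 : Icc 0 q = insert 0 (insert 1 (Icc 2 q)) := by
    ext j; simp only [mem_Icc, mem_insert]; omega
  rw [e1, e2, sum_insert (by simp), sum_insert (by simp), sum_insert (by simp), T0_one, T0_zero,
    sum_Icc_T0_ge _ _ _ le_rfl]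
  ring

/-- tail of a block vector -/
lemma tail_fst (m : ℕ) (c : ℕ → ℝ) (p : ℕ → ℕ) (hp : ∀ i, i < m → 2 ≤ p i) :
    (∑ i ∈ range m, c i • bv (p i)).1 = 0 := by
  rw [Prod.fst_sum]
  apply sum_eq_zero
  intro i hi
  obtain ⟨n, hn⟩ := Nat.exists_eq_add_of_le (hp i (mem_range.mp hi))
  rw [hn, add_comm 2 n]
  simp only [bv, Prod.smul_fst]
  ext <;> simp

lemma norm_head (s t : ℝ) (r : XX) (hr : r.1 = 0) :
    ‖s • bv 0 + t • bv 1 + r‖ = max (max |s| |t|) ‖r.2‖ := by
  rw [Prod.norm_def, Prod.norm_def]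
  simp [bv, hr]

/-- Every value of the `J`-norm expression at `T0 a` is dominated by a value at `a`. -/
lemma blockVec_T0_le (a : ℕ →₀ ℝ) (k : ℕ) (p q : ℕ → ℕ) (hF : IsFamily k p q) (B : ℝ)
    (hB : ∀ (k : ℕ) (p q : ℕ → ℕ), IsFamily k p q → ‖blockVec bv a k p q‖ ≤ B) :
    ‖blockVec bv (T0 a) k p q‖ ≤ B := by
  obtain ⟨hk, hpq, hqp⟩ := hF
  have hF : IsFamily k p q := ⟨hk, hpq, hqp⟩
  obtain ⟨m, rfl⟩ : ∃ m, k = m + 1 := ⟨k - 1, by omega⟩
  have hp1 : ∀ i, i < m → q 0 < p (i + 1) := fun i hi => hF.q_lt 0 (i + 1) (by omega) (by omega)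
  have hpq0 := hpq 0 (by omega)
  -- the general shape of a block vector
  have shape : ∀ (b : ℕ →₀ ℝ) (p' : ℕ → ℕ), (∀ i, p' (i + 1) = p (i + 1)) →
      blockVec bv b (m + 1) p' q =
        (∑ i ∈ range m, (∑ j ∈ Icc (p (i + 1)) (q (i + 1)), b j) • bv (p (i + 1))) +
        (∑ j ∈ Icc (p' 0) (q 0), b j) • bv (p' 0) := by
    intro b p' hp'
    rw [blockVec, sum_range_succ']
    simp only [hp']
  rcases Nat.lt_or_ge (q 0) 1 with hq0 | hq0
  · -- first interval is `[0,0]`
    have hq00 : q 0 = 0 := by omega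
    have hp00 : p 0 = 0 := by omega
    by_cases h1 : 1 ≤ m ∧ p 1 = 1
    · -- second interval starts at `1`
      obtain ⟨hm, hp11⟩ := h1
      obtain ⟨l, rfl⟩ : ∃ l, m = l + 1 := ⟨m - 1, by omega⟩
      have hpq1 := hpq 1 (by omega)
      have hp2 : ∀ i, i < l → 2 ≤ p (i + 2) := by
        intro i hi
        have := hF.q_lt 1 (i + 2) (by omega) (by omega)
        omega
      set r : XX := ∑ i ∈ range l, (∑ j ∈ Icc (p (i + 2)) (q (i + 2)), a j) • bv (p (i + 2))
        with hr
      have hr1 : r.1 = 0 := tail_fst l _ (fun i => p (i + 2)) hp2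
      have e1 : blockVec bv (T0 a) (l + 1 + 1) p q =
          (- a 0) • bv 0 + (∑ j ∈ Icc 0 (q 1), a j) • bv 1 + r := by
        rw [blockVec, sum_range_succ', sum_range_succ']
        simp only [zero_add, hp00, hq00, hp11]
        rw [sum_Icc_T0_one _ _ (by omega), Icc_self, sum_singleton, T0_zero]
        have : ∑ k ∈ range l, (∑ j ∈ Icc (p (k + 1 + 1)) (q (k + 1 + 1)), (T0 a) j) •
            bv (p (k + 1 + 1)) = r := by
          rw [hr]
          apply sum_congr rfl
          intro i hi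
          rw [sum_Icc_T0_ge _ _ _ (hp2 i (mem_range.mp hi))]
        rw [this]
        abel
      have e2 : blockVec bv a (l + 1 + 1) p q =
          (a 0) • bv 0 + (∑ j ∈ Icc 1 (q 1), a j) • bv 1 + r := by
        rw [blockVec, sum_range_succ', sum_range_succ']
        simp only [zero_add, hp00, hq00, hp11]
        rw [Icc_self, sum_singleton, hr]
        abel
      have e3 : blockVec bv a (l + 1) (fun i => if i = 0 then 0 else p (i + 1))
          (fun i => q (i + 1)) = (∑ j ∈ Icc 0 (q 1), a j) • bv 0 + (0 : ℝ) • bv 1 + r := by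
        rw [blockVec, sum_range_succ', hr]
        simp only [zero_add, if_true, Nat.succ_ne_zero, if_false, zero_smul, add_zero]
        abel
      have f3 : IsFamily (l + 1) (fun i => if i = 0 then 0 else p (i + 1))
          (fun i => q (i + 1)) := by
        refine ⟨by omega, ?_, ?_⟩
        · intro i hi
          by_cases h : i = 0
          · simp [h]
          · simp only [h, if_false]
            exact hpq (i + 1) (by omega)
        · intro i hi
          simp only [Nat.succ_ne_zero, if_false]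
          exact hqp (i + 1) (by omega)
      have b2 := hB _ _ _ hF
      have b3 := hB _ _ _ f3
      rw [e2, norm_head _ _ _ hr1] at b2
      rw [e3, norm_head _ _ _ hr1] at b3
      rw [e1, norm_head _ _ _ hr1, abs_neg]
      simp only [max_le_iff] at b2 b3 ⊢
      exact ⟨⟨b2.1.1, b3.1.1⟩, b2.2⟩
    · have hp2 : ∀ i, i < m → 2 ≤ p (i + 1) := by
        intro i hi
        rcases Nat.eq_zero_or_pos i with h | h
        · subst h
          have h3 := hp1 0 hi
          have h4 : p 1 ≠ 1 := fun h5 => h1 ⟨by omega, h5⟩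
          simp only [zero_add] at h3 ⊢
          omega
        · have h3 := hF.q_lt 1 (i + 1) (by omega) (by omega)
          have h4 := hpq 1 (by omega)
          have h5 := hp1 0 (by omega)
          simp only [zero_add] at h5
          omega
      set r : XX := ∑ i ∈ range m, (∑ j ∈ Icc (p (i + 1)) (q (i + 1)), a j) • bv (p (i + 1))
        with hr
      have hr1 : r.1 = 0 := tail_fst m _ (fun i => p (i + 1)) hp2
      have e1 : blockVec bv (T0 a) (m + 1) p q = (- a 0) • bv 0 + (0 : ℝ) • bv 1 + r := by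
        rw [shape _ p (fun _ => rfl), hp00, hq00, Icc_self, sum_singleton, T0_zero]
        have : ∑ i ∈ range m, (∑ j ∈ Icc (p (i + 1)) (q (i + 1)), (T0 a) j) •
            bv (p (i + 1)) = r := by
          rw [hr]
          apply sum_congr rfl
          intro i hi
          rw [sum_Icc_T0_ge _ _ _ (hp2 i (mem_range.mp hi))]
        rw [this, zero_smul, add_zero]
        abel
      have e2 : blockVec bv a (m + 1) p q = (a 0) • bv 0 + (0 : ℝ) • bv 1 + r := by
        rw [shape _ p (fun _ => rfl), hp00, hq00, Icc_self, sum_singleton, hr, zero_smul, add_zero]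
        abel
      have b2 := hB _ _ _ hF
      rw [e2, norm_head _ _ _ hr1] at b2
      rw [e1, norm_head _ _ _ hr1, abs_neg]
      exact b2
  · -- all later intervals start at `2` or later
    have hp2 : ∀ i, i < m → 2 ≤ p (i + 1) := by
      intro i hi
      have := hp1 i hi
      omega
    set r : XX := ∑ i ∈ range m, (∑ j ∈ Icc (p (i + 1)) (q (i + 1)), a j) • bv (p (i + 1))
      with hr
    have hr1 : r.1 = 0 := tail_fst m _ (fun i => p (i + 1)) hp2
    have hrT : ∑ i ∈ range m, (∑ j ∈ Icc (p (i + 1)) (q (i + 1)), (T0 a) j) •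
        bv (p (i + 1)) = r := by
      rw [hr]
      apply sum_congr rfl
      intro i hi
      rw [sum_Icc_T0_ge _ _ _ (hp2 i (mem_range.mp hi))]
    -- replacing the first starting point
    have upd : ∀ s : ℕ, s ≤ q 0 → IsFamily (m + 1) (Function.update p 0 s) q := by
      intro s hs
      refine ⟨by omega, ?_, ?_⟩
      · intro i hi
        by_cases h : i = 0
        · subst h; simpa using hs
        · rw [Function.update_of_ne h]; exact hpq i hi
      · intro i hi
        rw [Function.update_of_ne (Nat.succ_ne_zero i)]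
        exact hqp i hi
    have shape' : ∀ s : ℕ, blockVec bv a (m + 1) (Function.update p 0 s) q =
        r + (∑ j ∈ Icc s (q 0), a j) • bv s := by
      intro s
      rw [shape _ (Function.update p 0 s) (fun i => Function.update_of_ne (Nat.succ_ne_zero i) _ _),
        Function.update_self]
    rcases Nat.lt_or_ge (p 0) 2 with hp0 | hp0
    · rcases Nat.lt_or_ge (p 0) 1 with hp0' | hp0'
      · have hp00 : p 0 = 0 := by omega
        have b := hB _ _ _ (upd 1 hq0)
        rw [shape' 1] at b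
        have e1 : blockVec bv (T0 a) (m + 1) p q =
            (∑ j ∈ Icc 1 (q 0), a j) • bv 0 + (0 : ℝ) • bv 1 + r := by
          rw [shape _ p (fun _ => rfl), hp00, sum_Icc_T0_zero _ _ hq0, hrT, zero_smul, add_zero,
            add_comm]
        have e2 : r + (∑ j ∈ Icc 1 (q 0), a j) • bv 1 =
            (0 : ℝ) • bv 0 + (∑ j ∈ Icc 1 (q 0), a j) • bv 1 + r := by
          rw [zero_smul, zero_add, add_comm]
        rw [e2, norm_head _ _ _ hr1] at b
        rw [e1, norm_head _ _ _ hr1]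
        rwa [max_comm |(0 : ℝ)|] at b
      · have hp00 : p 0 = 1 := by omega
        have b := hB _ _ _ (upd 0 (by omega))
        rw [shape' 0] at b
        have e1 : blockVec bv (T0 a) (m + 1) p q =
            (0 : ℝ) • bv 0 + (∑ j ∈ Icc 0 (q 0), a j) • bv 1 + r := by
          rw [shape _ p (fun _ => rfl), hp00, sum_Icc_T0_one _ _ hq0, hrT, zero_smul, zero_add,
            add_comm]
        have e2 : r + (∑ j ∈ Icc 0 (q 0), a j) • bv 0 =
            (∑ j ∈ Icc 0 (q 0), a j) • bv 0 + (0 : ℝ) • bv 1 + r := by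
          rw [zero_smul, add_zero, add_comm]
        rw [e2, norm_head _ _ _ hr1] at b
        rw [e1, norm_head _ _ _ hr1]
        rwa [max_comm |(0 : ℝ)|]
    · have b := hB _ _ _ hF
      rw [shape _ p (fun _ => rfl)] at b ⊢
      rw [hrT, sum_Icc_T0_ge _ _ _ hp0]
      exact b

/-- the norm of `X` is monotone in the coordinates -/
lemma norm_mono_cf (z w : XX) (h : ∀ i, |cf i z| ≤ |cf i w|) : ‖z‖ ≤ ‖w‖ := by
  rw [Prod.norm_def, Prod.norm_def, Prod.norm_def, Prod.norm_def]
  refine max_le_max (max_le_max (h 0) (h 1)) ?_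
  exact lp.norm_mono (by simp) (fun i => h (i + 2))

lemma cf_sum (s : Finset ℕ) (c : ℕ → ℝ) (i : ℕ) :
    cf i (∑ j ∈ s, c j • bv j) = if i ∈ s then c i else 0 := by
  rw [map_sum]
  have h : ∀ j ∈ s, cf i (c j • bv j) = if j = i then c j else 0 := by
    intro j _
    have := basisX.ortho i j
    simp only [Pi.single_apply] at this
    change cf i (bv j) = _ at this
    rw [map_smul, this, smul_eq_mul]
    by_cases hij : i = j
    · simp [hij]
    · rw [if_neg hij, if_neg (Ne.symm hij), mul_zero]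
  rw [sum_congr rfl h, sum_ite_eq']

/-- Negative answer to Q1. -/
theorem result :
    ∃ (X : Type) (_ : NormedAddCommGroup X) (_ : NormedSpace ℝ X) (_ : CompleteSpace X)
      (b : UnconditionalSchauderBasis ℕ ℝ X),
      Function.Surjective (NormedSpace.inclusionInDoubleDual ℝ X) ∧
      (∀ i, ‖b i‖ = 1) ∧
      (∀ (s : Finset ℕ) (c θ : ℕ → ℝ), (∀ i, |θ i| ≤ 1) →
        ‖∑ i ∈ s, (θ i * c i) • b i‖ ≤ ‖∑ i ∈ s, c i • b i‖) ∧
      (∃ (J : Type) (_ : NormedAddCommGroup J) (_ : NormedSpace ℝ J) (_ : CompleteSpace J)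
        (ι : (ℕ →₀ ℝ) →ₗ[ℝ] J), IsJamesification b J ι) ∧
      ∀ (J : Type) [NormedAddCommGroup J] [NormedSpace ℝ J] [CompleteSpace J]
        (ι : (ℕ →₀ ℝ) →ₗ[ℝ] J), IsJamesification b J ι →
        ∃ T : J ≃ₗᵢ[ℝ] J, (¬ ∀ z, T z = z) ∧ (¬ ∀ z, T z = -z) := by
  refine ⟨XX, inferInstance, inferInstance, inferInstance, basisX, reflexive_XX, norm_bv, ?_,
    exists_jamesification _ 1 (fun i => (norm_bv i).le), ?_⟩
  · intro s c θ hθ
    apply norm_mono_cf
    intro i
    change |cf i (∑ j ∈ s, (θ j * c j) • bv j)| ≤ |cf i (∑ j ∈ s, c j • bv j)|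
    rw [cf_sum, cf_sum s c]
    split_ifs
    · rw [abs_mul]
      exact mul_le_of_le_one_left (abs_nonneg _) (hθ i)
    · exact le_rfl
  · intro J _ _ _ ι hι
    obtain ⟨hdense, hnorm⟩ := hι
    have hle : ∀ a, ‖ι (T0 a)‖ ≤ ‖ι a‖ := by
      intro a
      apply (hnorm (T0 a)).2
      rintro r ⟨k, p, q, hF, rfl⟩
      apply blockVec_T0_le a k p q hF
      intro k p q hF
      exact (hnorm a).1 ⟨k, p, q, hF, rfl⟩
    have heq : ∀ a, ‖ι (T0 a)‖ = ‖ι a‖ := by
      intro a
      apply le_antisymm (hle a)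
      have := hle (T0 a)
      rwa [T0_invol] at this
    let TE : (ℕ →₀ ℝ) ≃ₗ[ℝ] (ℕ →₀ ℝ) := LinearEquiv.ofInvolutive T0 T0_invol
    have hTE : ∀ a, TE a = T0 a := fun a => rfl
    let T : J ≃ₗᵢ[ℝ] J := TE.extendOfIsometry ι ι hdense hdense heq
    have hT : ∀ a, T (ι a) = ι (T0 a) := fun a =>
      LinearEquiv.extendOfIsometry_eq TE ι ι hdense hdense heq a
    -- a lower estimate of the norm
    have hfam : IsFamily 1 (fun _ => 0) (fun _ => 0) :=
      ⟨le_rfl, fun _ _ => le_rfl, fun i hi => by omega⟩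
    have hfam1 : IsFamily 1 (fun _ => 1) (fun _ => 1) :=
      ⟨le_rfl, fun _ _ => le_rfl, fun i hi => by omega⟩
    have low0 : ∀ a : ℕ →₀ ℝ, |a 0| ≤ ‖ι a‖ := by
      intro a
      have := (hnorm a).1 ⟨1, fun _ => 0, fun _ => 0, hfam, rfl⟩
      have e : ‖blockVec basisX.basis a 1 (fun _ => 0) (fun _ => 0)‖ = |a 0| := by
        simp only [blockVec, sum_range_one, Icc_self, sum_singleton]
        rw [norm_smul]
        change |a 0| * ‖bv 0‖ = |a 0|
        rw [norm_bv, mul_one]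
      rwa [e] at this
    have low1 : ∀ a : ℕ →₀ ℝ, |a 1| ≤ ‖ι a‖ := by
      intro a
      have := (hnorm a).1 ⟨1, fun _ => 1, fun _ => 1, hfam1, rfl⟩
      have e : ‖blockVec basisX.basis a 1 (fun _ => 1) (fun _ => 1)‖ = |a 1| := by
        simp only [blockVec, sum_range_one, Icc_self, sum_singleton]
        rw [norm_smul]
        change |a 1| * ‖bv 1‖ = |a 1|
        rw [norm_bv, mul_one]
      rwa [e] at this
    refine ⟨T, ?_, ?_⟩
    · intro h
      have h1 := h (ι (Finsupp.single 0 1))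
      rw [hT, ← sub_eq_zero, ← map_sub] at h1
      have h2 := low0 (T0 (Finsupp.single 0 1) - Finsupp.single 0 1)
      rw [h1, norm_zero, Finsupp.sub_apply, T0_zero] at h2
      simp at h2
      norm_num at h2
    · intro h
      have h1 := h (ι (Finsupp.single 0 1))
      rw [hT, ← sub_eq_zero, ← map_neg, ← map_sub] at h1
      have h2 := low1 (T0 (Finsupp.single 0 1) - -Finsupp.single 0 1)
      rw [h1, norm_zero, Finsupp.sub_apply, T0_one] at h2
      simp at h2
      norm_num at h2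

end Pool.Agent.Results.MP_8db9c5_an.NontrivialIsometry
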